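import Mathlib

set_option autoImplicit false

open Complex Metric Set Filter Topology Asymptotics
open scoped ContDiff ComplexConjugate

namespace Pool.Agent.Results.MP_63facb_an.EggOrbit

/-- Complex `n`-space with its Euclidean norm. -/
abbrev Cn (n : ℕ) : Type := EuclideanSpace ℂ (Fin n)

/-- `F` is a holomorphic embedding of `D` into the unit ball with `F z = 0`. -/
def IsSqueezingMap {n : ℕ} (D : Set (Cn n)) (z : Cn n) (F : Cn n → Cn n) : Prop :=
  DifferentiableOn ℂ F D ∧ InjOn F D ∧ MapsTo F D (ball 0 1) ∧ F z = 0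

/-- The squeezing function `s_D(z)` : supremum of all `r > 0` such that some holomorphic embedding
`F : D → B(0,1)` with `F z = 0` satisfies `B(0,r) ⊆ F(D)`. -/
noncomputable def squeezing {n : ℕ} (D : Set (Cn n)) (z : Cn n) : ℝ :=
  sSup {r : ℝ | 0 < r ∧ ∃ F : Cn n → Cn n, IsSqueezingMap D z F ∧ ball 0 r ⊆ F '' D}

/-- `r` is a `C^∞` local defining function of `D` on the open set `U`. -/
def IsDefiningOn {n : ℕ} (D U : Set (Cn n)) (r : Cn n → ℝ) : Prop :=
  IsOpen U ∧ ContDiffOn ℝ ∞ r U ∧ (∀ z ∈ U, fderiv ℝ r z ≠ 0) ∧ D ∩ U = {z | z ∈ U ∧ r z < 0}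

/-- The Levi form `∑ r_{j k̄}(q) v_j v̄_k`, i.e. one quarter of the Laplacian at `0` of
`ζ ↦ r (q + ζ v)`. -/
noncomputable def leviForm {n : ℕ} (r : Cn n → ℝ) (q v : Cn n) : ℝ :=
  (deriv (deriv fun t : ℝ => r (q + (t : ℂ) • v)) 0 +
    deriv (deriv fun t : ℝ => r (q + (t : ℂ) • (Complex.I • v))) 0) / 4

/-- `v` is a complex tangent vector at `q` to the level set of `r`. -/
def IsComplexTangent {n : ℕ} (r : Cn n → ℝ) (q v : Cn n) : Prop :=
  fderiv ℝ r q v = 0 ∧ fderiv ℝ r q (Complex.I • v) = 0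

/-- The boundary of `D` is `C^∞` and Levi pseudoconvex near `p`. -/
def IsLeviPseudoconvexNear {n : ℕ} (D : Set (Cn n)) (p : Cn n) : Prop :=
  ∃ (U : Set (Cn n)) (r : Cn n → ℝ), p ∈ U ∧ IsDefiningOn D U r ∧
    ∀ q ∈ frontier D ∩ U, ∀ v, IsComplexTangent r q v → 0 ≤ leviForm r q v

/-- `p` is a strongly pseudoconvex boundary point of `D`. -/
def IsStronglyPseudoconvexAt {n : ℕ} (D : Set (Cn n)) (p : Cn n) : Prop :=
  ∃ (U : Set (Cn n)) (r : Cn n → ℝ), p ∈ U ∧ IsDefiningOn D U r ∧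
    ∀ v, v ≠ 0 → IsComplexTangent r p v → 0 < leviForm r p v

/-- The D'Angelo type of the boundary point `p` of `D` is at most `T`: for every holomorphic germ
`γ` with `γ 0 = p` and all `m`, `N`, if the order of vanishing of `γ - p` is at most `m` and the
order of vanishing of `r ∘ γ` is at least `N`, then `N ≤ T m`. -/
def TypeAtMost {n : ℕ} (D : Set (Cn n)) (p : Cn n) (T : ℕ) : Prop :=
  ∃ (U : Set (Cn n)) (r : Cn n → ℝ), p ∈ U ∧ IsDefiningOn D U r ∧
    ∀ γ : ℂ → Cn n, AnalyticAt ℂ γ 0 → γ 0 = p → ∀ m N : ℕ,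
      ¬ ((fun ζ : ℂ => γ ζ - p) =O[𝓝 0] fun ζ : ℂ => ζ ^ (m + 1)) →
      ((fun ζ : ℂ => r (γ ζ)) =O[𝓝 0] fun ζ : ℂ => ζ ^ N) → N ≤ T * m

/-! ### The egg -/

/-- Defining function of the egg. -/
noncomputable def rr (z : Cn 2) : ℝ := normSq (z 0) + normSq (z 1) ^ 2 - 1

/-- The egg `|z₀|² + |z₁|⁴ < 1`. -/
def egg : Set (Cn 2) := {z | rr z < 0}

/-- The boundary point. -/
noncomputable def pp : Cn 2 := EuclideanSpace.single 0 1

theorem contDiff_rr : ContDiff ℝ ∞ rr := by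
  have h : ∀ i : Fin 2, ContDiff ℝ ∞ (fun z : Cn 2 => normSq (z i)) := by
    intro i
    have h1 : ContDiff ℝ ∞ (fun z : Cn 2 => (z i).re) :=
      (reCLM.comp ((EuclideanSpace.proj i : Cn 2 →L[ℂ] ℂ).restrictScalars ℝ)).contDiff
    have h2 : ContDiff ℝ ∞ (fun z : Cn 2 => (z i).im) :=
      (imCLM.comp ((EuclideanSpace.proj i : Cn 2 →L[ℂ] ℂ).restrictScalars ℝ)).contDiff
    have : (fun z : Cn 2 => normSq (z i)) = fun z => (z i).re * (z i).re + (z i).im * (z i).im := by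
      ext z; rw [normSq_apply]
    rw [this]
    exact (h1.mul h1).add (h2.mul h2)
  exact ((h 0).add ((h 1).pow 2)).sub contDiff_const

theorem continuous_rr : Continuous rr := contDiff_rr.continuous

theorem isOpen_egg : IsOpen egg := isOpen_lt continuous_rr continuous_const

/-- Restriction of `rr` to a real line. -/
theorem rr_line (q v : Cn 2) (t : ℝ) : rr (q + (t : ℂ) • v) =
    (normSq (q 0) + 2 * (q 0 * conj (v 0)).re * t + normSq (v 0) * t ^ 2) +
    (normSq (q 1) + 2 * (q 1 * conj (v 1)).re * t + normSq (v 1) * t ^ 2) ^ 2 - 1 := by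
  have h : ∀ a b : ℂ, normSq (a + (t : ℂ) * b) =
      normSq a + 2 * (a * conj b).re * t + normSq b * t ^ 2 := by
    intro a b
    simp [normSq_apply]
    ring
  simp only [rr, PiLp.add_apply, PiLp.smul_apply, smul_eq_mul, h]

theorem deriv_poly (a b c A B C t : ℝ) :
    HasDerivAt (fun t : ℝ => (a + b * t + c * t ^ 2) + (A + B * t + C * t ^ 2) ^ 2 - 1)
      (b + 2 * c * t + 2 * (A + B * t + C * t ^ 2) * (B + 2 * C * t)) t := by
  have h1 : ∀ a b c : ℝ, HasDerivAt (fun t : ℝ => a + b * t + c * t ^ 2) (b + 2 * c * t) t := by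
    intro a b c
    have := (((hasDerivAt_id t).const_mul b).const_add a).add (((hasDerivAt_id t).pow 2).const_mul c)
    refine this.congr_deriv ?_
    simp
    ring
  have := ((h1 a b c).add ((h1 A B C).pow 2)).sub_const 1
  refine this.congr_deriv ?_
  simp

theorem deriv2_poly (a b c A B C : ℝ) :
    deriv (deriv fun t : ℝ => (a + b * t + c * t ^ 2) + (A + B * t + C * t ^ 2) ^ 2 - 1) 0 =
      2 * c + 2 * B ^ 2 + 4 * A * C := by
  have h1 : (deriv fun t : ℝ => (a + b * t + c * t ^ 2) + (A + B * t + C * t ^ 2) ^ 2 - 1) =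
      fun t => b + 2 * c * t + 2 * (A + B * t + C * t ^ 2) * (B + 2 * C * t) := by
    ext t; exact (deriv_poly a b c A B C t).deriv
  rw [h1]
  have h2 : HasDerivAt (fun t : ℝ => A + B * t + C * t ^ 2) B 0 := by
    have := (((hasDerivAt_id (0 : ℝ)).const_mul B).const_add A).add
      (((hasDerivAt_id (0 : ℝ)).pow 2).const_mul C)
    refine this.congr_deriv ?_
    simp
  have h3 : HasDerivAt (fun t : ℝ => B + 2 * C * t) (2 * C) 0 := by
    have := ((hasDerivAt_id (0 : ℝ)).const_mul (2 * C)).const_add B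
    refine this.congr_deriv ?_
    simp
  have h4 : HasDerivAt (fun t : ℝ => b + 2 * c * t) (2 * c) 0 := by
    have := ((hasDerivAt_id (0 : ℝ)).const_mul (2 * c)).const_add b
    refine this.congr_deriv ?_
    simp
  have := h4.add ((h2.const_mul 2).mul h3)
  refine (this.congr_deriv ?_).deriv
  simp
  ring

theorem deriv2_nonneg (q v : Cn 2) : 0 ≤ deriv (deriv fun t : ℝ => rr (q + (t : ℂ) • v)) 0 := by
  simp_rw [rr_line]
  rw [deriv2_poly]
  have h1 := normSq_nonneg (v 0)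
  have h2 := normSq_nonneg (q 1)
  have h3 := normSq_nonneg (v 1)
  positivity

theorem levi_nonneg (q v : Cn 2) : 0 ≤ leviForm rr q v := by
  have h1 := deriv2_nonneg q v
  have h2 := deriv2_nonneg q (Complex.I • v)
  unfold leviForm
  linarith

theorem fderiv_rr_self (z : Cn 2) : fderiv ℝ rr z z = 2 * normSq (z 0) + 4 * normSq (z 1) ^ 2 := by
  have hd : DifferentiableAt ℝ rr z := contDiff_rr.differentiable (by simp) z
  have h1 : HasDerivAt (fun t : ℝ => z + (t : ℂ) • z) z 0 := by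
    have h2 : HasDerivAt (fun t : ℝ => t • z) z 0 := by
      have := (hasDerivAt_id (0 : ℝ)).smul_const z
      simpa using this
    have h3 := h2.const_add z
    refine h3.congr_of_eventuallyEq ?_
    filter_upwards with t
    simp
  have h4 : HasDerivAt (fun t : ℝ => rr (z + (t : ℂ) • z)) (fderiv ℝ rr z z) 0 := by
    have hz : z + ((0 : ℝ) : ℂ) • z = z := by simp
    have hd' : HasFDerivAt rr (fderiv ℝ rr z) (z + ((0 : ℝ) : ℂ) • z) := by
      rw [hz]; exact hd.hasFDerivAt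
    exact hd'.comp_hasDerivAt (0 : ℝ) h1
  have h5 : (fun t : ℝ => rr (z + (t : ℂ) • z)) = fun t : ℝ =>
    (normSq (z 0) + 2 * (z 0 * conj (z 0)).re * t + normSq (z 0) * t ^ 2) +
    (normSq (z 1) + 2 * (z 1 * conj (z 1)).re * t + normSq (z 1) * t ^ 2) ^ 2 - 1 := by
    ext t; exact rr_line z z t
  rw [h5] at h4
  have h6 := h4.unique (deriv_poly _ _ _ _ _ _ 0)
  rw [h6, mul_conj, mul_conj]
  simp only [ofReal_re]
  ring

theorem isDefining : IsDefiningOn egg {z | z ≠ 0} rr := by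
  refine ⟨isOpen_ne, contDiff_rr.contDiffOn, ?_, ?_⟩
  · intro z hz h
    have h1 := fderiv_rr_self z
    rw [h] at h1
    have h2 := normSq_nonneg (z 0)
    have h3 : 0 ≤ normSq (z 1) ^ 2 := sq_nonneg _
    have h4 : normSq (z 0) = 0 := by
      simp at h1; linarith
    have h5 : normSq (z 1) ^ 2 = 0 := by
      simp at h1; linarith
    apply hz
    ext i
    fin_cases i
    · simpa using h4
    · simpa using h5
  · ext z
    simp [egg, and_comm]

theorem frontier_rr {q : Cn 2} (hq : q ∈ frontier egg) : rr q = 0 := by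
  have := frontier_lt_subset_eq continuous_rr continuous_const hq
  simpa using this

theorem frontier_ne {q : Cn 2} (hq : q ∈ frontier egg) : q ≠ 0 := by
  rintro rfl
  have := frontier_rr hq
  simp [rr] at this

theorem convex_egg : Convex ℝ egg := by
  have h : ∀ i : Fin 2, ConvexOn ℝ univ (fun z : Cn 2 => ‖z i‖) := by
    intro i
    have := (convexOn_norm (convex_univ (𝕜 := ℝ) (E := ℂ))).comp_linearMap
      ((EuclideanSpace.proj i : Cn 2 →L[ℂ] ℂ).restrictScalars ℝ).toLinearMap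
    simpa [Function.comp_def] using this
  have h0 := (h 0).pow (fun _ _ => norm_nonneg _) 2
  have h1 := (h 1).pow (fun _ _ => norm_nonneg _) 4
  have := (h0.add h1).convex_lt 1
  have e : egg = {x : Cn 2 | x ∈ univ ∧ ((fun z : Cn 2 => ‖z 0‖) ^ 2 + (fun z : Cn 2 => ‖z 1‖) ^ 4) x < 1} := by
    ext z
    simp only [egg, rr, mem_ofPred_eq, mem_univ, true_and, Pi.add_apply, Pi.pow_apply,
      normSq_eq_norm_sq, ← pow_mul]
    norm_num
  rw [e]
  exact this

theorem egg_bound {z : Cn 2} (hz : z ∈ egg) : ‖z 0‖ < 1 ∧ ‖z 1‖ < 1 := by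
  have h : normSq (z 0) + normSq (z 1) ^ 2 - 1 < 0 := hz
  rw [normSq_eq_norm_sq, normSq_eq_norm_sq] at h
  have h0 := norm_nonneg (z 0)
  have h1 := norm_nonneg (z 1)
  constructor
  · by_contra hc
    push Not at hc
    nlinarith [sq_nonneg (‖z 1‖ ^ 2)]
  · by_contra hc
    push Not at hc
    have : 1 ≤ ‖z 1‖ ^ 2 := by nlinarith
    nlinarith [sq_nonneg (‖z 0‖)]

theorem isBounded_egg : Bornology.IsBounded egg := by
  rw [isBounded_iff_forall_norm_le]
  refine ⟨2, fun z hz => ?_⟩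
  obtain ⟨h0, h1⟩ := egg_bound hz
  rw [EuclideanSpace.norm_eq, Fin.sum_univ_two, Real.sqrt_le_left (by norm_num)]
  nlinarith [norm_nonneg (z 0), norm_nonneg (z 1)]

theorem isConnected_egg : IsConnected egg :=
  ⟨⟨0, by simp [egg, rr]⟩, convex_egg.isPreconnected⟩

theorem pp_frontier : pp ∈ frontier egg := by
  rw [isOpen_egg.frontier_eq]
  constructor
  · rw [mem_closure_iff_seq_limit]
    refine ⟨fun n : ℕ => ((1 - 1 / ((n : ℝ) + 1) : ℝ) : ℂ) • pp, ?_, ?_⟩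
    · intro n
      have h1 : (0 : ℝ) < 1 / ((n : ℝ) + 1) := by positivity
      have h2 : 1 / ((n : ℝ) + 1) ≤ 1 := by
        rw [div_le_one (by positivity)]
        have : (0 : ℝ) ≤ n := Nat.cast_nonneg n
        linarith
      show rr _ < 0
      simp only [rr, pp, PiLp.smul_apply, PiLp.single_apply]
      simp only [if_true, smul_eq_mul, mul_one, normSq_ofReal, one_ne_zero, if_false, mul_zero,
        normSq_zero]
      nlinarith
    · have h1 : Tendsto (fun n : ℕ => (1 - 1 / ((n : ℝ) + 1) : ℝ)) atTop (𝓝 (1 - 0)) :=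
        tendsto_const_nhds.sub tendsto_one_div_add_atTop_nhds_zero_nat
      have h2 : Tendsto (fun n : ℕ => ((1 - 1 / ((n : ℝ) + 1) : ℝ) : ℂ)) atTop (𝓝 ((1 - 0 : ℝ) : ℂ)) :=
        (continuous_ofReal.tendsto _).comp h1
      have h3 := h2.smul_const pp
      simpa using h3
  · show ¬ rr pp < 0
    simp [rr, pp]

/-! ### The point `(1,0)` is not strongly pseudoconvex -/

theorem path_tendsto {n : ℕ} (p v : Cn n) (U : Set (Cn n)) (hU : IsOpen U) (hp : p ∈ U) :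
    ∀ᶠ t : ℝ in 𝓝 0, p + (t : ℂ) • v ∈ U := by
  have h : Continuous (fun t : ℝ => p + (t : ℂ) • v) := by fun_prop
  have h0 : p + ((0 : ℝ) : ℂ) • v ∈ U := by simpa using hp
  exact h.continuousAt.eventually (hU.mem_nhds h0)

/-- A `C^∞` function of one real variable with `0 ≤ u(t) ≤ C t⁴` near `0` has vanishing first and
second derivative at `0`. -/
theorem derivs_zero {u : ℝ → ℝ} (hu : ContDiffAt ℝ ∞ u 0) {C : ℝ}
    (h : ∀ᶠ t in 𝓝 (0 : ℝ), 0 ≤ u t ∧ u t ≤ C * t ^ 4) :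
    deriv u 0 = 0 ∧ deriv (deriv u) 0 = 0 := by
  have h0 : u 0 = 0 := by
    have := h.self_of_nhds
    simp at this
    linarith
  have hmin : IsLocalMin u 0 := by
    filter_upwards [h] with t ht
    rw [h0]; exact ht.1
  have hd0 : deriv u 0 = 0 := hmin.deriv_eq_zero
  refine ⟨hd0, ?_⟩
  -- Taylor expansion of second order
  have hu2 : ContDiffAt ℝ 2 u 0 := hu.of_le ENat.LEInfty.out
  have hdu : ContDiffAt ℝ 1 (deriv u) 0 := by
    have := (hu2.fderiv_right (m := 1) (by norm_num)).clm_apply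
      (contDiffAt_const (c := (1 : ℝ)))
    simpa using this
  have hdd : HasDerivAt (deriv u) (deriv (deriv u) 0) 0 :=
    (hdu.differentiableAt (by norm_num)).hasDerivAt
  by_contra hne
  set L := deriv (deriv u) 0 with hL
  -- the function u - L t²/2 has small derivative
  have hev1 : ∀ᶠ t in 𝓝 (0 : ℝ), DifferentiableAt ℝ u t := by
    have := hu2.eventually (by simp)
    filter_upwards [this] with t ht
    exact ht.differentiableAt (by norm_num)
  have hlo : ∀ᶠ t in 𝓝 (0 : ℝ), |deriv u t - L * t| ≤ |L| / 4 * |t| := by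
    have := hdd.isLittleO.def (show 0 < |L| / 4 by positivity)
    filter_upwards [this] with t ht
    rw [hd0] at ht
    simp only [sub_zero, smul_eq_mul, Real.norm_eq_abs] at ht
    rw [mul_comm L t]
    exact ht
  obtain ⟨δ, hδ, hball⟩ := Metric.eventually_nhds_iff_ball.1 (hev1.and (hlo.and h))
  -- mean value inequality on [0,t]
  have key : ∀ t : ℝ, 0 < t → t < δ → |u t - L * t ^ 2 / 2| ≤ |L| / 4 * t * t := by
    intro t ht0 htδ
    have hmem : ∀ x ∈ Icc (0 : ℝ) t, x ∈ ball (0 : ℝ) δ := by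
      intro x hx
      rw [mem_ball_zero_iff, Real.norm_eq_abs, abs_of_nonneg hx.1]
      linarith [hx.2]
    have hder : ∀ x ∈ Icc (0 : ℝ) t, HasDerivWithinAt (fun x => u x - L * x ^ 2 / 2)
        (deriv u x - L * x) (Icc 0 t) x := by
      intro x hx
      have h1 := ((hball x (hmem x hx)).1.hasDerivAt)
      have h2 : HasDerivAt (fun x : ℝ => L * x ^ 2 / 2) (L * x) x := by
        have := (((hasDerivAt_id x).pow 2).const_mul L).div_const 2
        refine this.congr_deriv ?_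
        simp; ring
      exact (h1.sub h2).hasDerivWithinAt
    have hbd : ∀ x ∈ Icc (0 : ℝ) t, ‖deriv u x - L * x‖ ≤ |L| / 4 * t := by
      intro x hx
      have h1 := (hball x (hmem x hx)).2.1
      rw [Real.norm_eq_abs]
      refine h1.trans ?_
      rw [abs_of_nonneg hx.1]
      have : 0 ≤ |L| / 4 := by positivity
      exact mul_le_mul_of_nonneg_left hx.2 this
    have := (convex_Icc (0 : ℝ) t).norm_image_sub_le_of_norm_hasDerivWithin_le hder hbd
      (left_mem_Icc.mpr ht0.le) (right_mem_Icc.mpr ht0.le)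
    simp only [h0, Real.norm_eq_abs] at this
    norm_num at this
    rw [abs_of_pos ht0] at this
    exact this
  -- choose t small
  have hLpos : 0 < |L| := abs_pos.mpr hne
  obtain ⟨t, ht0, htδ, htC⟩ : ∃ t : ℝ, 0 < t ∧ t < δ ∧ |C| * t ^ 2 < |L| / 4 := by
    set s : ℝ := min (δ / 2) (min 1 (|L| / (8 * (|C| + 1)))) with hs
    have hs0 : 0 < s := by
      apply lt_min (by linarith)
      apply lt_min one_pos
      positivity
    refine ⟨s, hs0, ?_, ?_⟩
    · have : s ≤ δ / 2 := min_le_left _ _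
      linarith
    · have h1 : s ≤ 1 := (min_le_right _ _).trans (min_le_left _ _)
      have h2 : s ≤ |L| / (8 * (|C| + 1)) := (min_le_right _ _).trans (min_le_right _ _)
      have h3 : s * (8 * (|C| + 1)) ≤ |L| := by
        rwa [le_div_iff₀ (by positivity)] at h2
      have h4 : s ^ 2 ≤ s := by nlinarith
      have h5 : 0 ≤ |C| := abs_nonneg C
      nlinarith
  have h1 := key t ht0 htδ
  have h2 := (hball t (by rw [mem_ball_zero_iff, Real.norm_eq_abs, abs_of_pos ht0]; exact htδ)).2.2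
  have h3 : |u t| ≤ |C| * t ^ 2 * t ^ 2 := by
    rw [abs_of_nonneg h2.1]
    refine h2.2.trans ?_
    have : C * t ^ 4 ≤ |C| * t ^ 4 := mul_le_mul_of_nonneg_right (le_abs_self C) (by positivity)
    calc C * t ^ 4 ≤ |C| * t ^ 4 := this
      _ = _ := by ring
  have h4 : |L * t ^ 2 / 2| ≤ |u t| + |L| / 4 * t * t := by
    have := abs_sub_abs_le_abs_sub (L * t ^ 2 / 2) (u t)
    rw [abs_sub_comm (L * t ^ 2 / 2) (u t)] at this
    linarith
  have h5 : |L * t ^ 2 / 2| = |L| * t ^ 2 / 2 := by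
    rw [abs_div, abs_mul, abs_of_pos (show (0 : ℝ) < t ^ 2 by positivity)]
    norm_num
  rw [h5] at h4
  have h6 : 0 < t ^ 2 := by positivity
  nlinarith

/-- Along the complex tangent direction at `(1,0)`, every defining function is `O(t⁴)`. -/
theorem tangent_order {U : Set (Cn 2)} {r : Cn 2 → ℝ} (hp : pp ∈ U) (hdef : IsDefiningOn egg U r)
    (w : ℂ) (hw : ‖w‖ = 1) :
    deriv (fun t : ℝ => r (pp + (t : ℂ) • EuclideanSpace.single 1 w)) 0 = 0 ∧
    deriv (deriv fun t : ℝ => r (pp + (t : ℂ) • EuclideanSpace.single 1 w)) 0 = 0 := by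
  obtain ⟨hU, hr, hdr, hset⟩ := hdef
  have hrp : ContDiffAt ℝ ∞ r pp := hr.contDiffAt (hU.mem_nhds hp)
  -- local Lipschitz bound
  obtain ⟨K, V, hV, hLip⟩ : ∃ K, ∃ V ∈ 𝓝 pp, LipschitzOnWith K r V :=
    (hrp.of_le (by exact_mod_cast le_top : ((1 : ℕ∞) : WithTop ℕ∞) ≤ ∞)).exists_lipschitzOnWith
  obtain ⟨ε, hε, hball⟩ := Metric.mem_nhds_iff.1 (Filter.inter_mem hV (hU.mem_nhds hp))
  set v : Cn 2 := EuclideanSpace.single 1 w with hv
  have hvn : ‖v‖ = 1 := by rw [hv, PiLp.norm_single, hw]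
  have hsm : ContDiffAt ℝ ∞ (fun t : ℝ => r (pp + (t : ℂ) • v)) 0 := by
    have h1 : ContDiff ℝ ∞ (fun t : ℝ => pp + (t : ℂ) • v) := by
      have : (fun t : ℝ => pp + (t : ℂ) • v) = fun t : ℝ => pp + t • v := by
        ext t i; simp
      rw [this]
      fun_prop
    have h2 : ContDiffAt ℝ ∞ r (pp + ((0 : ℝ) : ℂ) • v) := by simpa using hrp
    exact h2.comp (0 : ℝ) h1.contDiffAt
  refine derivs_zero hsm (C := K) ?_
  have hpv : ∀ t : ℝ, normSq ((pp + (t : ℂ) • v) 0) = 1 ∧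
      normSq ((pp + (t : ℂ) • v) 1) = t ^ 2 := by
    intro t
    constructor
    · simp [pp, hv]
    · simp only [pp, hv, PiLp.add_apply, PiLp.smul_apply, PiLp.single_apply]
      simp [normSq_eq_norm_sq, hw]
  have hev : ∀ᶠ t : ℝ in 𝓝 0, |t| < min (ε / 4) (1 / 2) :=
    (continuous_abs.tendsto' (0 : ℝ) 0 abs_zero).eventually
      (gt_mem_nhds (lt_min (by linarith) (by norm_num)))
  filter_upwards [hev] with t ht
  have ht1 : |t| < ε / 4 := lt_of_lt_of_le ht (min_le_left _ _)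
  have ht2 : |t| < 1 / 2 := lt_of_lt_of_le ht (min_le_right _ _)
  have ht4 : t ^ 4 ≤ |t| := by
    have h1 : t ^ 4 = |t| ^ 4 := by rw [← abs_pow, abs_of_nonneg (by positivity : 0 ≤ t ^ 4)]
    rw [h1]
    have h2 : 0 ≤ |t| := abs_nonneg t
    calc |t| ^ 4 = |t| * |t| ^ 3 := by ring
      _ ≤ |t| * 1 := by
          apply mul_le_mul_of_nonneg_left _ h2
          exact pow_le_one₀ h2 (by linarith)
      _ = |t| := mul_one _
  have hx : pp + (t : ℂ) • v ∈ ball pp ε := by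
    rw [mem_ball, dist_eq_norm, add_sub_cancel_left, norm_smul, hvn]
    simp only [norm_real, Real.norm_eq_abs, mul_one]
    linarith
  set y : Cn 2 := pp + (t : ℂ) • v - ((t ^ 4 : ℝ) : ℂ) • pp with hy
  have hppn : ‖pp‖ = 1 := by rw [pp, PiLp.norm_single]; simp
  have hyd : ‖(pp + (t : ℂ) • v) - y‖ = t ^ 4 := by
    rw [hy, sub_sub_cancel, norm_smul, hppn, norm_real, Real.norm_eq_abs,
      abs_of_nonneg (by positivity : 0 ≤ t ^ 4), mul_one]
  have hy' : y ∈ ball pp ε := by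
    rw [mem_ball, dist_eq_norm]
    calc ‖y - pp‖ ≤ ‖y - (pp + (t : ℂ) • v)‖ + ‖(pp + (t : ℂ) • v) - pp‖ := norm_sub_le_norm_sub_add_norm_sub _ _ _
      _ = t ^ 4 + |t| := by
          rw [norm_sub_rev, hyd, add_sub_cancel_left, norm_smul, hvn]
          simp
      _ < ε := by linarith
  constructor
  · by_contra hneg
    push Not at hneg
    have hin : pp + (t : ℂ) • v ∈ egg ∩ U := by
      rw [hset]; exact ⟨(hball hx).2, hneg⟩
    have : rr (pp + (t : ℂ) • v) < 0 := hin.1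
    rw [rr, (hpv t).1, (hpv t).2] at this
    nlinarith [sq_nonneg (t ^ 2)]
  · by_cases htz : t = 0
    · subst htz
      have hpU : r pp ≤ 0 := by
        by_contra hcon
        push Not at hcon
        -- r > 0 near pp contradicts pp ∈ closure egg
        have h1 : ∀ᶠ z in 𝓝 pp, 0 < r z ∧ z ∈ U :=
          (hrp.continuousAt.eventually (lt_mem_nhds hcon)).and (hU.mem_nhds hp)
        have h2 : pp ∈ closure egg := frontier_subset_closure pp_frontier
        rw [mem_closure_iff_frequently] at h2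
        obtain ⟨z, hz1, hz2, hz3⟩ := (h2.and_eventually h1).exists
        have : z ∈ egg ∩ U := ⟨hz1, hz3⟩
        rw [hset] at this
        linarith [this.2]
      simpa using hpU
    have hyegg : y ∈ egg := by
      show rr y < 0
      have e0 : y 0 = ((1 - t ^ 4 : ℝ) : ℂ) := by
        simp [hy, pp, hv]
      have e1 : normSq (y 1) = t ^ 2 := by
        have : y 1 = (pp + (t : ℂ) • v) 1 := by
          simp [hy, pp]
        rw [this, (hpv t).2]
      rw [rr, e0, e1, normSq_ofReal]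
      have h1 : 0 < t ^ 4 := by positivity
      have h2 : t ^ 4 < 1 := by linarith
      nlinarith
    have hry : r y < 0 := by
      have : y ∈ egg ∩ U := ⟨hyegg, (hball hy').2⟩
      rw [hset] at this
      exact this.2
    have h3 := hLip.norm_sub_le (hball hx).1 (hball hy').1
    rw [hyd] at h3
    have h4 := le_abs_self (r (pp + (t : ℂ) • v) - r y)
    rw [← Real.norm_eq_abs] at h4
    linarith

theorem not_strongly : ¬ IsStronglyPseudoconvexAt egg pp := by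
  rintro ⟨U, r, hp, hdef, hpos⟩
  have h1 := tangent_order hp hdef 1 (by simp)
  have h2 := tangent_order hp hdef Complex.I (by simp)
  have hI : Complex.I • (EuclideanSpace.single 1 (1 : ℂ) : Cn 2) = EuclideanSpace.single 1 Complex.I := by
    ext i
    fin_cases i <;> simp
  have hv : (EuclideanSpace.single 1 (1 : ℂ) : Cn 2) ≠ 0 := by simp
  have hd : DifferentiableAt ℝ r pp :=
    (hdef.2.1.contDiffAt (hdef.1.mem_nhds hp)).differentiableAt (by simp)
  have hline : ∀ v : Cn 2, deriv (fun t : ℝ => r (pp + (t : ℂ) • v)) 0 = fderiv ℝ r pp v := by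
    intro v
    have h1 : HasDerivAt (fun t : ℝ => pp + (t : ℂ) • v) v 0 := by
      have h2 : HasDerivAt (fun t : ℝ => t • v) v 0 := by
        have := (hasDerivAt_id (0 : ℝ)).smul_const v
        simpa using this
      have h3 := h2.const_add pp
      refine h3.congr_of_eventuallyEq ?_
      filter_upwards with t
      simp
    have hd' : HasFDerivAt r (fderiv ℝ r pp) (pp + ((0 : ℝ) : ℂ) • v) := by
      have hz : pp + ((0 : ℝ) : ℂ) • v = pp := by simp
      rw [hz]; exact hd.hasFDerivAt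
    exact (hd'.comp_hasDerivAt (0 : ℝ) h1).deriv
  have ht : IsComplexTangent r pp (EuclideanSpace.single 1 (1 : ℂ)) := by
    constructor
    · rw [← hline]; exact h1.1
    · rw [← hline, hI]; exact h2.1
  have := hpos _ hv ht
  unfold leviForm at this
  rw [hI, h1.2, h2.2] at this
  norm_num at this

/-! ### Finite type -/

theorem lower_of_not_isBigO {b : ℂ → ℂ} (hb : AnalyticAt ℂ b 0) {m : ℕ}
    (h : ¬ (b =O[𝓝 0] fun ζ : ℂ => ζ ^ (m + 1))) :
    ∃ κ : ℝ, 0 < κ ∧ ∀ᶠ ζ in 𝓝 (0 : ℂ), κ * ‖ζ‖ ^ m ≤ ‖b ζ‖ := by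
  have hnt : analyticOrderAt b 0 ≠ ⊤ := by
    intro ht
    rw [analyticOrderAt_eq_top] at ht
    apply h
    refine IsBigO.of_bound 1 ?_
    filter_upwards [ht] with ζ hζ
    rw [hζ]; simp
  obtain ⟨g, hg, hg0, hgb⟩ := (hb.analyticOrderAt_ne_top).1 hnt
  set k : ℕ := analyticOrderNatAt b 0 with hk
  have hgc : ∀ᶠ ζ in 𝓝 (0 : ℂ), ‖g 0‖ / 2 < ‖g ζ‖ ∧ ‖g ζ‖ < ‖g 0‖ + 1 := by
    have h1 : Tendsto (fun ζ => ‖g ζ‖) (𝓝 0) (𝓝 ‖g 0‖) := hg.continuousAt.norm
    have hpos : 0 < ‖g 0‖ := norm_pos_iff.mpr hg0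
    exact (h1.eventually (lt_mem_nhds (by linarith))).and
      (h1.eventually (gt_mem_nhds (by linarith)))
  have hsmall : ∀ᶠ ζ in 𝓝 (0 : ℂ), ‖ζ‖ < 1 := by
    have : Tendsto (fun ζ : ℂ => ‖ζ‖) (𝓝 0) (𝓝 ‖(0 : ℂ)‖) := continuous_norm.continuousAt
    exact this.eventually (gt_mem_nhds (by simp))
  have hkm : k ≤ m := by
    by_contra hcon
    push Not at hcon
    apply h
    refine IsBigO.of_bound (‖g 0‖ + 1) ?_
    filter_upwards [hgb, hgc, hsmall] with ζ h1 h2 h3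
    rw [h1, sub_zero, smul_eq_mul, norm_mul, norm_pow, norm_pow, mul_comm]
    apply mul_le_mul h2.2.le _ (by positivity) (by positivity)
    exact pow_le_pow_of_le_one (norm_nonneg _) h3.le hcon
  refine ⟨‖g 0‖ / 2, by have := norm_pos_iff.mpr hg0; linarith, ?_⟩
  filter_upwards [hgb, hgc, hsmall] with ζ h1 h2 h3
  rw [h1, sub_zero, smul_eq_mul, norm_mul, norm_pow, mul_comm]
  apply mul_le_mul _ h2.1.le (by positivity) (by positivity)
  exact pow_le_pow_of_le_one (norm_nonneg _) h3.le hkm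

theorem type_aux {q : Cn 2} (hq : rr q = 0) {γ : ℂ → Cn 2} (hγ : AnalyticAt ℂ γ 0) (h0 : γ 0 = q)
    {m N : ℕ} (hm : ¬ ((fun ζ : ℂ => γ ζ - q) =O[𝓝 0] fun ζ : ℂ => ζ ^ (m + 1)))
    (hN : (fun ζ : ℂ => rr (γ ζ)) =O[𝓝 0] fun ζ : ℂ => ζ ^ N) : N ≤ 4 * m := by
  have hγi : ∀ i : Fin 2, AnalyticAt ℂ (fun ζ => γ ζ i) 0 := by
    intro i
    exact ((EuclideanSpace.proj i : Cn 2 →L[ℂ] ℂ).analyticAt _).comp hγ
  set a : ℂ → ℂ := fun ζ => γ ζ 0 - q 0 with ha
  set b : ℂ → ℂ := fun ζ => γ ζ 1 - q 1 with hb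
  set c : ℂ → ℂ := fun ζ => b ζ * (2 * q 1 + b ζ) with hc
  have haa : AnalyticAt ℂ a 0 := (hγi 0).sub analyticAt_const
  have hba : AnalyticAt ℂ b 0 := (hγi 1).sub analyticAt_const
  have hca : AnalyticAt ℂ c 0 := hba.mul (analyticAt_const.add hba)
  have ha0 : a 0 = 0 := by simp [ha, h0]
  have hb0 : b 0 = 0 := by simp [hb, h0]
  have hsmall : ∀ᶠ ζ in 𝓝 (0 : ℂ), ‖ζ‖ < 1 := by
    have : Tendsto (fun ζ : ℂ => ‖ζ‖) (𝓝 0) (𝓝 ‖(0 : ℂ)‖) := continuous_norm.continuousAt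
    exact this.eventually (gt_mem_nhds (by simp))
  -- lower bound
  obtain ⟨κ, hκ, hlow⟩ : ∃ κ : ℝ, 0 < κ ∧ ∀ᶠ ζ in 𝓝 (0 : ℂ),
      κ * ‖ζ‖ ^ (4 * m) ≤ normSq (a ζ) + normSq (c ζ) := by
    by_cases hcase : a =O[𝓝 0] fun ζ : ℂ => ζ ^ (m + 1)
    · have hbn : ¬ (b =O[𝓝 0] fun ζ : ℂ => ζ ^ (m + 1)) := by
        intro hbO
        apply hm
        have hsum : (fun ζ => γ ζ - q) = fun ζ => a ζ • (EuclideanSpace.single 0 (1 : ℂ) : Cn 2) +
            b ζ • (EuclideanSpace.single 1 (1 : ℂ) : Cn 2) := by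
          ext ζ i
          fin_cases i <;> simp [ha, hb]
        rw [hsum]
        have h1 : (fun ζ => a ζ • (EuclideanSpace.single 0 (1 : ℂ) : Cn 2)) =O[𝓝 0]
            fun ζ : ℂ => ζ ^ (m + 1) := by
          refine IsBigO.trans (IsBigO.of_bound 1 ?_) hcase
          filter_upwards with ζ
          rw [norm_smul, PiLp.norm_single]; simp
        have h2 : (fun ζ => b ζ • (EuclideanSpace.single 1 (1 : ℂ) : Cn 2)) =O[𝓝 0]
            fun ζ : ℂ => ζ ^ (m + 1) := by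
          refine IsBigO.trans (IsBigO.of_bound 1 ?_) hbO
          filter_upwards with ζ
          rw [norm_smul, PiLp.norm_single]; simp
        exact h1.add h2
      obtain ⟨κ, hκ, hlow⟩ := lower_of_not_isBigO hba hbn
      by_cases hq1 : q 1 = 0
      · refine ⟨κ ^ 4, by positivity, ?_⟩
        filter_upwards [hlow] with ζ hζ
        have h1 : normSq (c ζ) = ‖b ζ‖ ^ 4 := by
          simp only [hc, hq1, mul_zero, zero_add]
          rw [normSq_mul, normSq_eq_norm_sq]; ring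
        have h2 : κ ^ 4 * ‖ζ‖ ^ (4 * m) = (κ * ‖ζ‖ ^ m) ^ 4 := by
          rw [mul_pow, ← pow_mul, mul_comm m 4]
        rw [h1, h2]
        have h3 : (κ * ‖ζ‖ ^ m) ^ 4 ≤ ‖b ζ‖ ^ 4 := pow_le_pow_left₀ (by positivity) hζ 4
        have := normSq_nonneg (a ζ)
        linarith
      · have hq1' : 0 < ‖q 1‖ := norm_pos_iff.mpr hq1
        have h2b : ∀ᶠ ζ in 𝓝 (0 : ℂ), ‖q 1‖ < ‖2 * q 1 + b ζ‖ := by
          have h1 : ContinuousAt (fun ζ => ‖2 * q 1 + b ζ‖) 0 :=
            (continuousAt_const.add hba.continuousAt).norm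
          apply h1.eventually (lt_mem_nhds _)
          show ‖q 1‖ < ‖2 * q 1 + b 0‖
          rw [hb0, add_zero, norm_mul]
          simp only [RCLike.norm_ofNat]
          linarith
        refine ⟨(κ * ‖q 1‖) ^ 2, by positivity, ?_⟩
        filter_upwards [hlow, h2b, hsmall] with ζ hζ h2 h3
        have h4 : κ * ‖q 1‖ * ‖ζ‖ ^ (2 * m) ≤ ‖c ζ‖ := by
          simp only [hc]
          rw [norm_mul]
          calc κ * ‖q 1‖ * ‖ζ‖ ^ (2 * m) ≤ κ * ‖q 1‖ * ‖ζ‖ ^ m := by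
                apply mul_le_mul_of_nonneg_left _ (by positivity)
                exact pow_le_pow_of_le_one (norm_nonneg _) h3.le (by omega)
            _ = (κ * ‖ζ‖ ^ m) * ‖q 1‖ := by ring
            _ ≤ ‖b ζ‖ * ‖2 * q 1 + b ζ‖ :=
                mul_le_mul hζ h2.le (by positivity) (by positivity)
        have h5 : (κ * ‖q 1‖ * ‖ζ‖ ^ (2 * m)) ^ 2 ≤ ‖c ζ‖ ^ 2 :=
          pow_le_pow_left₀ (by positivity) h4 2
        have h6 : (κ * ‖q 1‖ * ‖ζ‖ ^ (2 * m)) ^ 2 = (κ * ‖q 1‖) ^ 2 * ‖ζ‖ ^ (4 * m) := by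
          rw [mul_pow _ (‖ζ‖ ^ (2 * m)), ← pow_mul, show 2 * m * 2 = 4 * m by ring]
        rw [h6] at h5
        rw [normSq_eq_norm_sq (c ζ)]
        have := normSq_nonneg (a ζ)
        linarith
    · obtain ⟨κ, hκ, hlow⟩ := lower_of_not_isBigO haa hcase
      refine ⟨κ ^ 2, by positivity, ?_⟩
      filter_upwards [hlow, hsmall] with ζ hζ h3
      have h4 : κ * ‖ζ‖ ^ (2 * m) ≤ ‖a ζ‖ := by
        refine le_trans ?_ hζ
        apply mul_le_mul_of_nonneg_left _ hκ.le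
        exact pow_le_pow_of_le_one (norm_nonneg _) h3.le (by omega)
      have h5 : (κ * ‖ζ‖ ^ (2 * m)) ^ 2 ≤ ‖a ζ‖ ^ 2 := pow_le_pow_left₀ (by positivity) h4 2
      have h6 : (κ * ‖ζ‖ ^ (2 * m)) ^ 2 = κ ^ 2 * ‖ζ‖ ^ (4 * m) := by
        rw [mul_pow _ (‖ζ‖ ^ (2 * m)), ← pow_mul, show 2 * m * 2 = 4 * m by ring]
      rw [h6] at h5
      rw [normSq_eq_norm_sq (a ζ)]
      have := normSq_nonneg (c ζ)
      linarith
  -- upper bound
  obtain ⟨K, hK, hup⟩ := hN.exists_pos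
  rw [IsBigOWith] at hup
  -- harmonic part
  set g : ℂ → ℂ := fun ζ => conj (q 0) * a ζ + conj (q 1 ^ 2) * c ζ with hg
  have hga : AnalyticAt ℂ g 0 := (analyticAt_const.mul haa).add (analyticAt_const.mul hca)
  have hid : ∀ ζ, rr (γ ζ) = 2 * (g ζ).re + (normSq (a ζ) + normSq (c ζ)) := by
    intro ζ
    have e0 : γ ζ 0 = q 0 + a ζ := by simp [ha]
    have e1 : γ ζ 1 ^ 2 = q 1 ^ 2 + c ζ := by simp only [hc, hb]; ring
    have e2 : normSq (γ ζ 1) ^ 2 = normSq (γ ζ 1 ^ 2) := by rw [map_pow]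
    have e3 : normSq (q 0) + normSq (q 1 ^ 2) - 1 = 0 := by
      rw [map_pow]; exact hq
    rw [rr, e2, e0, e1, normSq_add, normSq_add]
    have e4 : (g ζ).re = (q 0 * conj (a ζ)).re + (q 1 ^ 2 * conj (c ζ)).re := by
      simp only [hg, add_re, mul_re, conj_re, conj_im]
      ring
    rw [e4]
    linarith
  -- choose a good radius
  by_contra hcon
  push Not at hcon
  have hev : ∀ᶠ ζ in 𝓝 (0 : ℂ), AnalyticAt ℂ g ζ ∧ AnalyticAt ℂ a ζ ∧ AnalyticAt ℂ c ζ ∧
      κ * ‖ζ‖ ^ (4 * m) ≤ normSq (a ζ) + normSq (c ζ) ∧ ‖rr (γ ζ)‖ ≤ K * ‖ζ ^ N‖ :=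
    hga.eventually_analyticAt.and (haa.eventually_analyticAt.and
      (hca.eventually_analyticAt.and (hlow.and hup)))
  obtain ⟨δ, hδ, hball⟩ := Metric.eventually_nhds_iff_ball.1 hev
  have hmain : ∀ ρ : ℝ, 0 < ρ → ρ < δ → κ * ρ ^ (4 * m) ≤ K * ρ ^ N := by
    intro ρ hρ0 hρδ
    have hsub : closedBall (0 : ℂ) |ρ| ⊆ ball 0 δ := by
      rw [abs_of_pos hρ0]; exact closedBall_subset_ball hρδ
    have hsub' : sphere (0 : ℂ) |ρ| ⊆ ball 0 δ := sphere_subset_closedBall.trans hsub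
    have hharm : InnerProductSpace.HarmonicOnNhd (fun ζ => (g ζ).re) (closedBall (0 : ℂ) |ρ|) := by
      intro ζ hζ
      exact (hball ζ (hsub hζ)).1.harmonicAt_re
    have h1 : Real.circleAverage (fun ζ => (g ζ).re) 0 ρ = (g 0).re := hharm.circleAverage_eq
    have hg0 : g 0 = 0 := by simp [hg, ha0, hb0, hc]
    have hcont1 : ContinuousOn (fun ζ => 2 * (g ζ).re) (sphere (0 : ℂ) ρ) := by
      intro ζ hζ
      have hζ' : ζ ∈ ball (0 : ℂ) δ := hsub' (by rwa [abs_of_pos hρ0])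
      have : ContinuousAt g ζ := (hball ζ hζ').1.continuousAt
      exact (continuousAt_const.mul (continuous_re.continuousAt.comp this)).continuousWithinAt
    have hcont2 : ContinuousOn (fun ζ => normSq (a ζ) + normSq (c ζ)) (sphere (0 : ℂ) ρ) := by
      intro ζ hζ
      have hζ' : ζ ∈ ball (0 : ℂ) δ := hsub' (by rwa [abs_of_pos hρ0])
      have hA : ContinuousAt a ζ := (hball ζ hζ').2.1.continuousAt
      have hC : ContinuousAt c ζ := (hball ζ hζ').2.2.1.continuousAt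
      exact ((continuous_normSq.continuousAt.comp hA).add
        (continuous_normSq.continuousAt.comp hC)).continuousWithinAt
    have i1 := ContinuousOn.circleIntegrable hρ0.le hcont1
    have i2 := ContinuousOn.circleIntegrable hρ0.le hcont2
    have h2 : Real.circleAverage (fun ζ => rr (γ ζ)) 0 ρ =
        Real.circleAverage (fun ζ => normSq (a ζ) + normSq (c ζ)) 0 ρ := by
      have e : (fun ζ => rr (γ ζ)) = fun ζ => 2 * (g ζ).re + (normSq (a ζ) + normSq (c ζ)) := by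
        ext ζ; exact hid ζ
      rw [e, Real.circleAverage_fun_add i1 i2]
      have h3 : Real.circleAverage (fun ζ => 2 * (g ζ).re) 0 ρ = 0 := by
        have := Real.circleAverage_fun_smul (c := (0 : ℂ)) (R := ρ) (a := (2 : ℝ))
          (f := fun ζ => (g ζ).re)
        simp only [smul_eq_mul] at this
        rw [this, h1, hg0]; simp
      rw [h3, zero_add]
    have h3 : κ * ρ ^ (4 * m) ≤ Real.circleAverage (fun ζ => normSq (a ζ) + normSq (c ζ)) 0 ρ := by
      have hc1 : Real.circleAverage (fun _ : ℂ => κ * ρ ^ (4 * m)) 0 ρ = κ * ρ ^ (4 * m) :=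
        Real.circleAverage_const _ _ _
      rw [← hc1]
      apply Real.circleAverage_mono (circleIntegrable_const _ _ _) i2
      intro ζ hζ
      have h4 := (hball ζ (hsub' hζ)).2.2.2.1
      rw [mem_sphere_zero_iff_norm, abs_of_pos hρ0] at hζ
      rw [hζ] at h4
      exact h4
    have h4 : Real.circleAverage (fun ζ => rr (γ ζ)) 0 ρ ≤ K * ρ ^ N := by
      apply Real.circleAverage_mono_on_of_le_circle
      · have e : (fun ζ => rr (γ ζ)) = fun ζ => 2 * (g ζ).re + (normSq (a ζ) + normSq (c ζ)) := by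
          ext ζ; exact hid ζ
        rw [e]
        exact i1.add i2
      · intro ζ hζ
        have h4 := (hball ζ (hsub' hζ)).2.2.2.2
        rw [mem_sphere_zero_iff_norm, abs_of_pos hρ0] at hζ
        rw [norm_pow, hζ] at h4
        exact (le_abs_self _).trans h4
    rw [h2] at h4
    exact h3.trans h4
  -- conclusion
  have hlim : ∀ᶠ ρ in 𝓝[>] (0 : ℝ), κ ≤ K * ρ := by
    have h5 : ∀ᶠ ρ in 𝓝[>] (0 : ℝ), ρ < min δ 1 :=
      nhdsWithin_le_nhds (gt_mem_nhds (lt_min hδ one_pos))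
    filter_upwards [h5, self_mem_nhdsWithin] with ρ h6 h7
    have hρ0 : 0 < ρ := h7
    have h8 := hmain ρ hρ0 (lt_of_lt_of_le h6 (min_le_left _ _))
    have h9 : ρ ^ N ≤ ρ ^ (4 * m) * ρ := by
      rw [← pow_succ]
      exact pow_le_pow_of_le_one hρ0.le (lt_of_lt_of_le h6 (min_le_right _ _)).le hcon
    have h10 : κ * ρ ^ (4 * m) ≤ K * ρ * ρ ^ (4 * m) := by
      calc κ * ρ ^ (4 * m) ≤ K * ρ ^ N := h8
        _ ≤ K * (ρ ^ (4 * m) * ρ) := mul_le_mul_of_nonneg_left h9 hK.le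
        _ = _ := by ring
    exact le_of_mul_le_mul_right h10 (by positivity)
  have hlim2 : Tendsto (fun ρ : ℝ => K * ρ) (𝓝[>] 0) (𝓝 0) := by
    have : Tendsto (fun ρ : ℝ => K * ρ) (𝓝 0) (𝓝 (K * 0)) := (continuous_const.mul continuous_id).tendsto 0
    rw [mul_zero] at this
    exact this.mono_left nhdsWithin_le_nhds
  have := ge_of_tendsto hlim2 hlim
  linarith

theorem egg_type {q : Cn 2} (hq : q ∈ frontier egg) : TypeAtMost egg q 4 :=
  ⟨{z | z ≠ 0}, rr, frontier_ne hq, isDefining,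
    fun _ hγ h0 _ _ hm hN => type_aux (frontier_rr hq) hγ h0 hm hN⟩

theorem egg_levi {q : Cn 2} (hq : q ∈ frontier egg) : IsLeviPseudoconvexNear egg q :=
  ⟨{z | z ≠ 0}, rr, frontier_ne hq, isDefining, fun x _ v _ => levi_nonneg x v⟩

/-! ### Automorphisms of the egg -/

/-- Vector of `ℂ²` with given coordinates. -/
def vec (a b : ℂ) : Cn 2 := WithLp.toLp 2 ![a, b]

@[simp] theorem vec_zero (a b : ℂ) : vec a b 0 = a := by simp [vec]
@[simp] theorem vec_one (a b : ℂ) : vec a b 1 = b := by simp [vec]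

theorem vec_ext {x y : Cn 2} (h0 : x 0 = y 0) (h1 : x 1 = y 1) : x = y := by
  ext i
  fin_cases i
  · exact h0
  · exact h1

theorem vec_diff {D : Set (Cn 2)} {p q : Cn 2 → ℂ} (hp : DifferentiableOn ℂ p D)
    (hq : DifferentiableOn ℂ q D) : DifferentiableOn ℂ (fun z => vec (p z) (q z)) D := by
  rw [differentiableOn_euclidean]
  intro i
  fin_cases i
  · simpa [vec] using hp
  · simpa [vec] using hq

theorem diff_div {D : Set (Cn 2)} {p q : Cn 2 → ℂ} (hp : DifferentiableOn ℂ p D)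
    (hq : DifferentiableOn ℂ q D) (h : ∀ z ∈ D, q z ≠ 0) :
    DifferentiableOn ℂ (fun z => p z / q z) D := by
  simp_rw [div_eq_mul_inv]
  exact hp.mul (hq.inv h)

theorem diff_divc {D : Set (Cn 2)} {p : Cn 2 → ℂ} (hp : DifferentiableOn ℂ p D) (c : ℂ) :
    DifferentiableOn ℂ (fun z => p z / c) D := by
  simp_rw [div_eq_mul_inv]
  exact hp.mul_const _

/-- Inverse square root on the right half plane. -/
noncomputable def isq (w : ℂ) : ℂ := exp (-(1 / 2) * log w)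

/-- Fourth root of `1 - a²`. -/
noncomputable def ca (a : ℝ) : ℝ := Real.exp (Real.log (1 - a ^ 2) / 4)

theorem ca_pos (a : ℝ) : 0 < ca a := Real.exp_pos _

theorem ca_pow {a : ℝ} (ha : a ^ 2 < 1) : ca a ^ 4 = 1 - a ^ 2 := by
  rw [ca, ← Real.exp_nat_mul]
  have : ((4 : ℕ) : ℝ) * (Real.log (1 - a ^ 2) / 4) = Real.log (1 - a ^ 2) := by
    push_cast; ring
  rw [this, Real.exp_log (by linarith)]

theorem ca_neg (a : ℝ) : ca (-a) = ca a := by simp [ca]

/-- The automorphism of the egg. -/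
noncomputable def phi (a : ℝ) (z : Cn 2) : Cn 2 :=
  vec ((z 0 + a) / (1 + a * z 0)) (ca a * z 1 * isq (1 + a * z 0))

theorem re_pos {a : ℝ} (ha : a ^ 2 < 1) {z : Cn 2} (hz : z ∈ egg) : 0 < (1 + a * z 0).re := by
  have h1 := (egg_bound hz).1
  have h2 : |(z 0).re| ≤ ‖z 0‖ := abs_re_le_norm _
  have h3 : |a| < 1 := by
    rw [← sq_lt_sq₀ (abs_nonneg a) zero_le_one, sq_abs]; simpa using ha
  simp only [add_re, one_re, mul_re, ofReal_re, ofReal_im, zero_mul, sub_zero]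
  have h4 : |a * (z 0).re| < 1 := by
    rw [abs_mul]
    have := abs_nonneg a
    have := abs_nonneg (z 0).re
    nlinarith
  have := (abs_lt.mp h4).1
  linarith

theorem ne_zero_of_re_pos {w : ℂ} (h : 0 < w.re) : w ≠ 0 := by
  rintro rfl; simp at h

theorem normSq_isq {w : ℂ} (h : 0 < w.re) : normSq (isq w) ^ 2 = 1 / normSq w := by
  have hw := ne_zero_of_re_pos h
  have hn : 0 < ‖w‖ := norm_pos_iff.mpr hw
  have h1 : normSq (isq w) = Real.exp (-Real.log ‖w‖) := by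
    rw [normSq_eq_norm_sq, isq, norm_exp, ← Real.exp_nat_mul]
    congr 1
    have : (-(1 / 2) * log w).re = -(1 / 2) * Real.log ‖w‖ := by
      rw [show (-(1 / 2) * log w : ℂ) = ((-(1 / 2) : ℝ) : ℂ) * log w by push_cast; ring, re_ofReal_mul,
        log_re]
    rw [this]
    push_cast
    ring
  rw [h1, Real.exp_neg, Real.exp_log hn, normSq_eq_norm_sq]
  simp

theorem rr_phi {a : ℝ} (ha : a ^ 2 < 1) {z : Cn 2} (hz : z ∈ egg) :
    rr (phi a z) = (1 - a ^ 2) * rr z / normSq (1 + a * z 0) := by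
  have hre := re_pos ha hz
  have hw := ne_zero_of_re_pos hre
  have hns : 0 < normSq (1 + a * z 0) := normSq_pos.mpr hw
  have h1 : normSq (phi a z 1) ^ 2 = (1 - a ^ 2) * normSq (z 1) ^ 2 / normSq (1 + a * z 0) := by
    simp only [phi, vec_one, map_mul, normSq_ofReal]
    have e : (ca a * ca a * normSq (z 1) * normSq (isq (1 + a * z 0))) ^ 2 =
        ca a ^ 4 * normSq (z 1) ^ 2 * (normSq (isq (1 + a * z 0)) ^ 2) := by ring
    rw [e, ca_pow ha, normSq_isq hre]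
    ring
  have h2 : normSq (phi a z 0) = normSq (z 0 + a) / normSq (1 + a * z 0) := by
    simp only [phi, vec_zero, map_div₀]
  have h3 : normSq (z 0 + a) = normSq (1 + a * z 0) + (1 - a ^ 2) * (normSq (z 0) - 1) := by
    simp only [normSq_apply, add_re, add_im, mul_re, mul_im, ofReal_re, ofReal_im, one_re, one_im]
    ring
  rw [rr, h1, h2, h3, rr]
  field_simp
  ring

theorem phi_egg {a : ℝ} (ha : a ^ 2 < 1) {z : Cn 2} (hz : z ∈ egg) : phi a z ∈ egg := by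
  show rr (phi a z) < 0
  rw [rr_phi ha hz]
  have hre := re_pos ha hz
  have hns : 0 < normSq (1 + a * z 0) := normSq_pos.mpr (ne_zero_of_re_pos hre)
  have hz' : rr z < 0 := hz
  apply div_neg_of_neg_of_pos _ hns
  have : 0 < 1 - a ^ 2 := by linarith
  nlinarith

theorem phi_diff {a : ℝ} (ha : a ^ 2 < 1) : DifferentiableOn ℂ (phi a) egg := by
  have h0 : DifferentiableOn ℂ (fun z : Cn 2 => z 0) egg :=
    (EuclideanSpace.proj 0 : Cn 2 →L[ℂ] ℂ).differentiable.differentiableOn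
  have h1 : DifferentiableOn ℂ (fun z : Cn 2 => z 1) egg :=
    (EuclideanSpace.proj 1 : Cn 2 →L[ℂ] ℂ).differentiable.differentiableOn
  have hw : DifferentiableOn ℂ (fun z : Cn 2 => 1 + (a : ℂ) * z 0) egg :=
    (h0.const_mul _).const_add _
  apply vec_diff
  · exact diff_div (h0.add_const _) hw (fun z hz => ne_zero_of_re_pos (re_pos ha hz))
  · apply (h1.const_mul _).mul
    have hlog : DifferentiableOn ℂ (fun z : Cn 2 => log (1 + (a : ℂ) * z 0)) egg := by
      apply hw.clog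
      intro z hz
      left
      exact re_pos ha hz
    exact (hlog.const_mul _).cexp

theorem phi_phi {a : ℝ} (ha : a ^ 2 < 1) {z : Cn 2} (hz : z ∈ egg) : phi (-a) (phi a z) = z := by
  have hre := re_pos ha hz
  have hw := ne_zero_of_re_pos hre
  have hc : (0 : ℝ) < 1 - a ^ 2 := by linarith
  have hcC : ((1 - a ^ 2 : ℝ) : ℂ) ≠ 0 := by exact_mod_cast hc.ne'
  have hcC' : (1 - (a : ℂ) ^ 2) ≠ 0 := by
    intro h; apply hcC; push_cast; exact h
  have h1 : 1 + ((-a : ℝ) : ℂ) * (phi a z 0) = ((1 - a ^ 2 : ℝ) : ℂ) * (1 + a * z 0)⁻¹ := by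
    simp only [phi, vec_zero]
    push_cast
    field_simp
    ring
  apply vec_ext
  · have h2 : phi (-a) (phi a z) 0 = (phi a z 0 + ((-a : ℝ) : ℂ)) / (1 + ((-a : ℝ) : ℂ) * phi a z 0) := by
      simp only [phi, vec_zero]
    rw [h2, h1]
    simp only [phi, vec_zero]
    obtain ⟨D, hD⟩ : ∃ D : ℂ, D = 1 + (a : ℂ) * z 0 := ⟨_, rfl⟩
    rw [← hD] at hw ⊢
    push_cast
    have hz0 : (z 0 + a) / D + -(a : ℂ) = (1 - (a : ℂ) ^ 2) * z 0 * D⁻¹ := by
      field_simp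
      rw [hD]
      ring
    rw [hz0]
    field_simp
  · have h2 : phi (-a) (phi a z) 1 =
        ca (-a) * (phi a z 1) * isq (1 + ((-a : ℝ) : ℂ) * phi a z 0) := by
      simp only [phi, vec_zero, vec_one]
    rw [h2, h1, ca_neg]
    have harg : (1 + (a : ℂ) * z 0).arg ≠ Real.pi := by
      intro h
      have := (abs_arg_lt_pi_div_two_iff.mpr (Or.inl hre))
      rw [h, abs_of_pos Real.pi_pos] at this
      linarith [Real.pi_pos]
    have h3 : isq (((1 - a ^ 2 : ℝ) : ℂ) * (1 + a * z 0)⁻¹) =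
        exp (-(1 / 2) * (Real.log (1 - a ^ 2) : ℝ)) * exp ((1 / 2) * log (1 + a * z 0)) := by
      rw [isq, log_ofReal_mul hc (inv_ne_zero hw), log_inv _ harg, ← exp_add]
      congr 1
      ring
    rw [h3]
    simp only [phi, vec_one]
    have h4 : isq (1 + a * z 0) * exp ((1 / 2) * log (1 + a * z 0)) = 1 := by
      rw [isq, ← exp_add]
      have : -(1 / 2) * log (1 + (a : ℂ) * z 0) + 1 / 2 * log (1 + a * z 0) = 0 := by ring
      rw [this, exp_zero]
    have h5 : (ca a : ℂ) * ca a * exp (-(1 / 2) * (Real.log (1 - a ^ 2) : ℝ)) = 1 := by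
      rw [ca]
      push_cast
      rw [← exp_add, ← exp_add]
      have : (Real.log (1 - a ^ 2) : ℂ) / 4 + (Real.log (1 - a ^ 2) : ℂ) / 4 +
        -(1 / 2) * (Real.log (1 - a ^ 2) : ℂ) = 0 := by ring
      rw [this, exp_zero]
    calc (ca a : ℂ) * ((ca a : ℂ) * z 1 * isq (1 + a * z 0)) *
          (exp (-(1 / 2) * (Real.log (1 - a ^ 2) : ℝ)) * exp ((1 / 2) * log (1 + a * z 0)))
        = z 1 * ((ca a : ℂ) * ca a * exp (-(1 / 2) * (Real.log (1 - a ^ 2) : ℝ))) *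
          (isq (1 + a * z 0) * exp ((1 / 2) * log (1 + a * z 0))) := by ring
      _ = z 1 := by rw [h4, h5]; ring

/-! ### Embeddings of the egg into the ball -/

/-- The embedding. -/
noncomputable def psi (τ : ℝ) (z : Cn 2) : Cn 2 :=
  vec ((√(1 - τ ^ 2) : ℝ) * (z 0 / 2) / (1 - τ * ((z 1 + 1) / 2)))
    (((z 1 + 1) / 2 - τ) / (1 - τ * ((z 1 + 1) / 2)))

/-- Its inverse. -/
noncomputable def xi (τ : ℝ) (ξ : Cn 2) : Cn 2 :=
  vec (2 * ((√(1 - τ ^ 2) : ℝ) * ξ 0 / (1 + τ * ξ 1)))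
    (2 * ((ξ 1 + τ) / (1 + τ * ξ 1)) - 1)

theorem egg_sub_ball {z : Cn 2} (hz : z ∈ egg) : normSq (z 0) + normSq (z 1 + 1) < 4 := by
  have h1 := (egg_bound hz).2
  have h2 : rr z < 0 := hz
  have h3 : (z 1).re ≤ ‖z 1‖ := re_le_norm _
  have h4 : normSq (z 1 + 1) = normSq (z 1) + 2 * (z 1).re + 1 := by
    simp [normSq_apply]; ring
  rw [h4]
  rw [rr] at h2
  have h5 : normSq (z 1) = ‖z 1‖ ^ 2 := normSq_eq_norm_sq _
  rw [h5] at h2 ⊢
  set s := ‖z 1‖ with hs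
  have hs0 : 0 ≤ s := norm_nonneg _
  nlinarith [mul_pos (sub_pos.mpr h1) (sub_pos.mpr h1), sq_nonneg (s * (1 - s)),
    mul_nonneg hs0 (sub_pos.mpr h1).le, sq_nonneg (1 - s), mul_nonneg (sq_nonneg s) (sub_pos.mpr h1).le]

theorem den_ne {τ : ℝ} (hτ0 : 0 ≤ τ) (hτ : τ < 1) {z : Cn 2} (hz : z ∈ egg) :
    1 - (τ : ℂ) * ((z 1 + 1) / 2) ≠ 0 := by
  intro h
  have h1 : (τ : ℂ) * ((z 1 + 1) / 2) = 1 := (sub_eq_zero.mp h).symm
  have h2 := congrArg norm h1
  rw [norm_mul, norm_div, norm_real, Real.norm_eq_abs, abs_of_nonneg hτ0] at h2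
  simp only [RCLike.norm_ofNat, norm_one] at h2
  have h3 := (egg_bound hz).2
  have h4 : ‖z 1 + 1‖ ≤ ‖z 1‖ + 1 := by
    calc ‖z 1 + 1‖ ≤ ‖z 1‖ + ‖(1 : ℂ)‖ := norm_add_le _ _
      _ = _ := by simp
  have h5 : 0 ≤ ‖z 1 + 1‖ := norm_nonneg _
  nlinarith

theorem psi_maps {τ : ℝ} (hτ0 : 0 ≤ τ) (hτ : τ < 1) {z : Cn 2} (hz : z ∈ egg) :
    psi τ z ∈ ball (0 : Cn 2) 1 := by
  rw [mem_ball_zero_iff, ← sq_lt_one_iff₀ (norm_nonneg _), EuclideanSpace.norm_sq_eq,
    Fin.sum_univ_two, ← normSq_eq_norm_sq, ← normSq_eq_norm_sq]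
  simp only [psi, vec_zero, vec_one]
  have hd := den_ne hτ0 hτ hz
  have hns : 0 < normSq (1 - (τ : ℂ) * ((z 1 + 1) / 2)) := normSq_pos.mpr hd
  have hb := egg_sub_ball hz
  rw [map_div₀, map_div₀, map_mul, normSq_ofReal, Real.mul_self_sqrt (by nlinarith),
    ← add_div, div_lt_one hns]
  have h1 : normSq (z 0 / 2) = normSq (z 0) / 4 := by
    rw [map_div₀]; norm_num [normSq_apply]
  set w : ℂ := (z 1 + 1) / 2 with hw
  have h2 : normSq w = normSq (z 1 + 1) / 4 := by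
    rw [hw, map_div₀]; norm_num [normSq_apply]
  have h3 : normSq (1 - (τ : ℂ) * w) - normSq (w - τ) = (1 - τ ^ 2) * (1 - normSq w) := by
    simp only [normSq_apply, sub_re, sub_im, mul_re, mul_im, ofReal_re, ofReal_im, one_re, one_im]
    ring
  rw [h1]
  have h4 : (1 - τ ^ 2) * (normSq (z 0) / 4) < (1 - τ ^ 2) * (1 - normSq w) := by
    apply mul_lt_mul_of_pos_left _ (by nlinarith)
    rw [h2]; linarith
  linarith

theorem psi_diff {τ : ℝ} (hτ0 : 0 ≤ τ) (hτ : τ < 1) : DifferentiableOn ℂ (psi τ) egg := by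
  have h0 : DifferentiableOn ℂ (fun z : Cn 2 => z 0) egg :=
    (EuclideanSpace.proj 0 : Cn 2 →L[ℂ] ℂ).differentiable.differentiableOn
  have h1 : DifferentiableOn ℂ (fun z : Cn 2 => z 1) egg :=
    (EuclideanSpace.proj 1 : Cn 2 →L[ℂ] ℂ).differentiable.differentiableOn
  have hw : DifferentiableOn ℂ (fun z : Cn 2 => 1 - (τ : ℂ) * ((z 1 + 1) / 2)) egg :=
    ((diff_divc (h1.add_const 1) 2).const_mul _).const_sub _
  apply vec_diff
  · exact diff_div ((diff_divc h0 2).const_mul _) hw (fun z hz => den_ne hτ0 hτ hz)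
  · exact diff_div ((diff_divc (h1.add_const 1) 2).sub_const _) hw (fun z hz => den_ne hτ0 hτ hz)

theorem xi_psi {τ : ℝ} (hτ0 : 0 ≤ τ) (hτ : τ < 1) {z : Cn 2} (hz : z ∈ egg) :
    xi τ (psi τ z) = z := by
  have hd := den_ne hτ0 hτ hz
  have hs : ((√(1 - τ ^ 2) : ℝ) : ℂ) * ((√(1 - τ ^ 2) : ℝ) : ℂ) = 1 - (τ : ℂ) ^ 2 := by
    rw [← ofReal_mul, Real.mul_self_sqrt (by nlinarith)]
    push_cast; ring
  have hc : (1 - (τ : ℂ) ^ 2) ≠ 0 := by
    have : (1 - τ ^ 2 : ℝ) ≠ 0 := by nlinarith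
    intro h
    apply this
    exact_mod_cast h
  set w : ℂ := (z 1 + 1) / 2 with hw
  have h1 : 1 + (τ : ℂ) * ((w - τ) / (1 - τ * w)) = (1 - (τ : ℂ) ^ 2) / (1 - τ * w) := by
    field_simp
    ring
  have hz1 : z 1 = 2 * w - 1 := by rw [hw]; ring
  apply vec_ext
  · simp only [xi, psi, vec_zero, vec_one]
    rw [← hw, h1]
    have : (2 : ℂ) * (((√(1 - τ ^ 2) : ℝ) : ℂ) * (((√(1 - τ ^ 2) : ℝ) : ℂ) * (z 0 / 2) / (1 - τ * w)) /
        ((1 - (τ : ℂ) ^ 2) / (1 - τ * w))) =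
        (((√(1 - τ ^ 2) : ℝ) : ℂ) * ((√(1 - τ ^ 2) : ℝ) : ℂ)) * z 0 / (1 - (τ : ℂ) ^ 2) := by
      field_simp
    rw [this, hs]
    field_simp
  · simp only [xi, psi, vec_one]
    rw [← hw, h1, hz1]
    obtain ⟨D, hD⟩ : ∃ D : ℂ, D = 1 - (τ : ℂ) * w := ⟨_, rfl⟩
    rw [← hD] at hd ⊢
    have e : (w - τ) / D + τ = (1 - (τ : ℂ) ^ 2) * w / D := by
      field_simp
      rw [hD]
      ring
    rw [e]
    field_simp

theorem psi_xi {τ : ℝ} (hτ0 : 0 ≤ τ) (hτ : τ < 1) {ξ : Cn 2} (hξ : 1 + (τ : ℂ) * ξ 1 ≠ 0) :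
    psi τ (xi τ ξ) = ξ := by
  have hs : ((√(1 - τ ^ 2) : ℝ) : ℂ) * ((√(1 - τ ^ 2) : ℝ) : ℂ) = 1 - (τ : ℂ) ^ 2 := by
    rw [← ofReal_mul, Real.mul_self_sqrt (by nlinarith)]
    push_cast; ring
  have hc : (1 - (τ : ℂ) ^ 2) ≠ 0 := by
    have : (1 - τ ^ 2 : ℝ) ≠ 0 := by nlinarith
    intro h
    apply this
    exact_mod_cast h
  have h0 : (2 * ((ξ 1 + τ) / (1 + τ * ξ 1)) - 1 + 1) / 2 = (ξ 1 + τ) / (1 + (τ : ℂ) * ξ 1) := by ring
  have h1 : 1 - (τ : ℂ) * ((ξ 1 + τ) / (1 + τ * ξ 1)) = (1 - (τ : ℂ) ^ 2) / (1 + τ * ξ 1) := by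
    field_simp
    ring
  apply vec_ext
  · simp only [xi, psi, vec_zero, vec_one]
    rw [h0, h1]
    have : ((√(1 - τ ^ 2) : ℝ) : ℂ) * (2 * (((√(1 - τ ^ 2) : ℝ) : ℂ) * ξ 0 / (1 + τ * ξ 1)) / 2) /
        ((1 - (τ : ℂ) ^ 2) / (1 + τ * ξ 1)) =
        (((√(1 - τ ^ 2) : ℝ) : ℂ) * ((√(1 - τ ^ 2) : ℝ) : ℂ)) * ξ 0 / (1 - (τ : ℂ) ^ 2) := by
      field_simp
    rw [this, hs]
    field_simp
  · simp only [xi, psi, vec_one]
    rw [h0, h1]
    obtain ⟨D, hD⟩ : ∃ D : ℂ, D = 1 + (τ : ℂ) * ξ 1 := ⟨_, rfl⟩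
    rw [← hD] at hξ ⊢
    have e : (ξ 1 + τ) / D - τ = (1 - (τ : ℂ) ^ 2) * ξ 1 / D := by
      field_simp
      rw [hD]
      ring
    rw [e]
    field_simp

/-- The image of the egg contains a large ball. -/
theorem xi_mem {τ ρ : ℝ} (hτ0 : 0 ≤ τ) (hτ : τ < 1)
    (h1 : 37 * (1 - τ) < 1 - ρ ^ 2) (h2 : 2 * (1 - τ) ≤ 1 - ρ) {ξ : Cn 2}
    (hξ : ξ ∈ ball (0 : Cn 2) ρ) : xi τ ξ ∈ egg ∧ 1 + (τ : ℂ) * ξ 1 ≠ 0 := by
  rw [mem_ball_zero_iff] at hξ
  have hnorm : normSq (ξ 0) + normSq (ξ 1) < ρ ^ 2 := by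
    have : ‖ξ‖ ^ 2 < ρ ^ 2 := pow_lt_pow_left₀ hξ (norm_nonneg _) two_ne_zero
    rwa [EuclideanSpace.norm_sq_eq, Fin.sum_univ_two, ← normSq_eq_norm_sq, ← normSq_eq_norm_sq] at this
  have hξ1 : ‖ξ 1‖ < ρ := (PiLp.norm_apply_le ξ 1).trans_lt hξ
  set d : ℂ := 1 + (τ : ℂ) * ξ 1 with hd
  have hdn : 1 - ρ ≤ ‖d‖ := by
    have h3 : ‖(1 : ℂ)‖ ≤ ‖d‖ + ‖(τ : ℂ) * ξ 1‖ := by
      calc ‖(1 : ℂ)‖ = ‖d - (τ : ℂ) * ξ 1‖ := by rw [hd]; congr 1; ring
        _ ≤ _ := norm_sub_le _ _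
    rw [norm_mul, norm_real, Real.norm_eq_abs, abs_of_nonneg hτ0] at h3
    simp only [norm_one] at h3
    have h4 : τ * ‖ξ 1‖ ≤ 1 * ρ := mul_le_mul hτ.le hξ1.le (norm_nonneg _) zero_le_one
    linarith
  have hdne : d ≠ 0 := by
    intro h
    rw [h, norm_zero] at hdn
    linarith
  refine ⟨?_, hdne⟩
  set ε : ℝ := 1 - τ with hε
  have hε0 : 0 < ε := by linarith
  have hD2 : 0 < normSq d := normSq_pos.mpr hdne
  have hDlow : 4 * ε ^ 2 ≤ normSq d := by
    rw [normSq_eq_norm_sq]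
    have : (2 * ε) ^ 2 ≤ ‖d‖ ^ 2 := pow_le_pow_left₀ (by linarith) (h2.trans hdn) 2
    linarith
  -- u' = ε (1 - ξ₂) / d
  set u : ℂ := (ε : ℂ) * (1 - ξ 1) / d with hu
  have hz1 : 2 * ((ξ 1 + τ) / d) - 1 = 1 - 2 * u := by
    rw [hu, hε]
    push_cast
    have : (ξ 1 + τ) = d - (1 - (τ : ℂ)) * (1 - ξ 1) := by rw [hd]; ring
    rw [this]
    field_simp
    ring
  have hre : u.re = ε * (1 - ε * (ξ 1).re - τ * normSq (ξ 1)) / normSq d := by
    rw [hu, div_re]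
    have e1 : ((ε : ℂ) * (1 - ξ 1)).re = ε * (1 - (ξ 1).re) := by simp
    have e2 : ((ε : ℂ) * (1 - ξ 1)).im = - ε * (ξ 1).im := by simp
    have e3 : d.re = 1 + τ * (ξ 1).re := by simp [hd]
    have e4 : d.im = τ * (ξ 1).im := by simp [hd]
    rw [e1, e2, e3, e4, ← add_div, normSq_apply (ξ 1), hε]
    congr 1
    ring
  have hns : normSq u ≤ 4 * ε ^ 2 / normSq d := by
    rw [hu, map_div₀, map_mul, normSq_ofReal]
    have e1 : normSq (1 - ξ 1) ≤ 4 := by
      rw [normSq_eq_norm_sq]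
      have : ‖1 - ξ 1‖ ≤ 2 := by
        calc ‖1 - ξ 1‖ ≤ ‖(1 : ℂ)‖ + ‖ξ 1‖ := norm_sub_le _ _
          _ ≤ 2 := by simp only [norm_one]; linarith
      nlinarith [norm_nonneg (1 - ξ 1)]
    apply div_le_div_of_nonneg_right _ hD2.le
    nlinarith [sq_nonneg ε]
  have hns1 : normSq u ≤ 1 := hns.trans ((div_le_one hD2).mpr hDlow)
  -- q
  set q : ℝ := 4 * u.re - 4 * normSq u with hq
  have hq2 : q ^ 2 ≤ 64 * normSq u := by
    have e1 : u.re ^ 2 ≤ normSq u := by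
      rw [normSq_apply]; nlinarith [sq_nonneg u.im]
    have e2 := normSq_nonneg u
    have e3 : (q / 4) ^ 2 ≤ 4 * normSq u := by
      have : q / 4 = u.re - normSq u := by rw [hq]; ring
      rw [this]
      nlinarith [sq_nonneg (u.re + normSq u)]
    nlinarith
  have hsq : normSq (1 - 2 * u) = 1 - q := by
    rw [hq]
    simp only [normSq_apply, sub_re, sub_im, mul_re, mul_im, one_re, one_im, re_ofNat, im_ofNat]
    ring
  have hX : normSq (2 * ((√(1 - τ ^ 2) : ℝ) * ξ 0 / d)) = 4 * (1 - τ ^ 2) * normSq (ξ 0) / normSq d := by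
    rw [map_mul, map_div₀, map_mul, normSq_ofReal, Real.mul_self_sqrt (by nlinarith)]
    have : normSq (2 : ℂ) = 4 := by norm_num [normSq_apply]
    rw [this]
    ring
  show rr (xi τ ξ) < 0
  simp only [rr, xi, vec_zero, vec_one]
  rw [← hd, hX, hz1, hsq]
  have hfinal : 4 * (1 - τ ^ 2) * normSq (ξ 0) / normSq d + (1 - q) ^ 2 - 1 ≤
      (4 * (1 - τ ^ 2) * normSq (ξ 0) - 8 * ε * (1 - ε * (ξ 1).re - τ * normSq (ξ 1)) +
        288 * ε ^ 2) / normSq d := by
    have e1 : (1 - q) ^ 2 - 1 = -8 * u.re + 8 * normSq u + q ^ 2 := by rw [hq]; ring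
    have e2 : (1 - q) ^ 2 - 1 ≤ -8 * u.re + 72 * (4 * ε ^ 2 / normSq d) := by
      rw [e1]
      linarith
    have e3 : (4 * (1 - τ ^ 2) * normSq (ξ 0) - 8 * ε * (1 - ε * (ξ 1).re - τ * normSq (ξ 1)) +
        288 * ε ^ 2) / normSq d = 4 * (1 - τ ^ 2) * normSq (ξ 0) / normSq d +
        (-8 * u.re + 72 * (4 * ε ^ 2 / normSq d)) := by
      rw [hre]; ring
    rw [e3]
    linarith
  refine lt_of_le_of_lt hfinal ?_
  apply div_neg_of_neg_of_pos _ hD2
  have e1 : (ξ 1).re ≤ 1 := by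
    have := re_le_norm (ξ 1)
    linarith
  have e2 := normSq_nonneg (ξ 0)
  have e3 := normSq_nonneg (ξ 1)
  have e4 : 1 - τ ^ 2 = ε * (2 - ε) := by rw [hε]; ring
  have e5 : τ = 1 - ε := by rw [hε]; ring
  rw [e4]
  have e6 : 4 * (ε * (2 - ε)) * normSq (ξ 0) - 8 * ε * (1 - ε * (ξ 1).re - τ * normSq (ξ 1)) +
        288 * ε ^ 2 = 8 * ε * (normSq (ξ 0) + normSq (ξ 1) - 1 + ε * (ξ 1).re + 36 * ε
          - ε * normSq (ξ 0) / 2 - ε * normSq (ξ 1)) := by
    rw [e5]; ring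
  rw [e6]
  apply mul_neg_of_pos_of_neg (by linarith)
  have e7 : 0 ≤ ε * normSq (ξ 0) := mul_nonneg hε0.le e2
  have e8 : 0 ≤ ε * normSq (ξ 1) := mul_nonneg hε0.le e3
  have e9 : ε * (ξ 1).re ≤ ε * 1 := mul_le_mul_of_nonneg_left e1 hε0.le
  linarith

/-! ### The squeezing function along the sequence -/

/-- The points of the sequence. -/
noncomputable def zz (ε : ℝ) : Cn 2 := phi (1 - ε) (vec 0 ((2 * (1 - ε) - 1 : ℝ) : ℂ))

theorem base_mem {ε : ℝ} (h0 : 0 < ε) (h1 : ε < 1) : vec 0 ((2 * (1 - ε) - 1 : ℝ) : ℂ) ∈ egg := by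
  show rr _ < 0
  simp only [rr, vec_zero, vec_one, normSq_ofReal, map_zero, zero_add]
  have h2 : (2 * (1 - ε) - 1) * (2 * (1 - ε) - 1) < 1 := by nlinarith
  have h3 : 0 ≤ (2 * (1 - ε) - 1) * (2 * (1 - ε) - 1) := mul_self_nonneg _
  nlinarith

theorem zz_mem {ε : ℝ} (h0 : 0 < ε) (h1 : ε < 1) : zz ε ∈ egg :=
  phi_egg (by nlinarith) (base_mem h0 h1)

theorem squeezing_bdd (z : Cn 2) :
    BddAbove {r : ℝ | 0 < r ∧ ∃ F : Cn 2 → Cn 2, IsSqueezingMap egg z F ∧ ball 0 r ⊆ F '' egg} := by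
  refine ⟨1, ?_⟩
  rintro r ⟨hr, F, ⟨-, -, hmaps, -⟩, hsub⟩
  by_contra hcon
  push Not at hcon
  have h1 : (EuclideanSpace.single 0 (1 : ℂ) : Cn 2) ∈ ball (0 : Cn 2) r := by
    rw [mem_ball_zero_iff, PiLp.norm_single]; simpa using hcon
  obtain ⟨x, hx, hFx⟩ := hsub h1
  have h2 := hmaps hx
  rw [hFx, mem_ball_zero_iff, PiLp.norm_single] at h2
  simp at h2

theorem squeezing_le_one (z : Cn 2) : squeezing egg z ≤ 1 := by
  apply Real.sSup_le _ zero_le_one
  rintro r ⟨hr, F, ⟨-, -, hmaps, -⟩, hsub⟩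
  by_contra hcon
  push Not at hcon
  have h1 : (EuclideanSpace.single 0 (1 : ℂ) : Cn 2) ∈ ball (0 : Cn 2) r := by
    rw [mem_ball_zero_iff, PiLp.norm_single]; simpa using hcon
  obtain ⟨x, hx, hFx⟩ := hsub h1
  have h2 := hmaps hx
  rw [hFx, mem_ball_zero_iff, PiLp.norm_single] at h2
  simp at h2

theorem le_squeezing {ε ρ : ℝ} (h0 : 0 < ε) (h1 : ε < 1) (hρ0 : 0 < ρ) (hρ1 : ρ < 1)
    (h2 : 37 * ε < 1 - ρ ^ 2) (h3 : 2 * ε ≤ 1 - ρ) : ρ ≤ squeezing egg (zz ε) := by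
  apply le_csSup (squeezing_bdd _)
  set a : ℝ := 1 - ε with ha
  have ha2 : a ^ 2 < 1 := by nlinarith
  have ha2' : (-a) ^ 2 < 1 := by nlinarith
  have ha0 : 0 ≤ a := by linarith
  have ha1 : a < 1 := by linarith
  have h2' : 37 * (1 - a) < 1 - ρ ^ 2 := by rw [ha]; linarith
  have h3' : 2 * (1 - a) ≤ 1 - ρ := by rw [ha]; linarith
  refine ⟨hρ0, fun z => psi a (phi (-a) z), ⟨?_, ?_, ?_, ?_⟩, ?_⟩
  · exact (psi_diff ha0 ha1).comp (phi_diff ha2') (fun z hz => phi_egg ha2' hz)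
  · intro x hx y hy hxy
    have e1 := congrArg (xi a) hxy
    simp only at e1
    rw [xi_psi ha0 ha1 (phi_egg ha2' hx), xi_psi ha0 ha1 (phi_egg ha2' hy)] at e1
    have e2 := congrArg (phi (- -a)) e1
    rwa [phi_phi ha2' hx, phi_phi ha2' hy] at e2
  · intro x hx
    exact psi_maps ha0 ha1 (phi_egg ha2' hx)
  · show psi a (phi (-a) (zz ε)) = 0
    rw [zz, phi_phi ha2 (base_mem h0 h1)]
    apply vec_ext
    · simp [psi]
    · simp only [psi, vec_one, PiLp.zero_apply]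
      have : ((((2 * a - 1 : ℝ) : ℂ) + 1) / 2 - a) = 0 := by push_cast; ring
      rw [this, zero_div]
  · intro ξ hξ
    obtain ⟨e1, e2⟩ := xi_mem ha0 ha1 h2' h3' hξ
    refine ⟨phi a (xi a ξ), phi_egg ha2 e1, ?_⟩
    show psi a (phi (-a) (phi a (xi a ξ))) = ξ
    rw [phi_phi ha2 e1, psi_xi ha0 ha1 e2]

theorem ca_tendsto : Tendsto (fun ε : ℝ => ca (1 - ε)) (𝓝[>] 0) (𝓝 0) := by
  have h1 : Tendsto (fun ε : ℝ => ca (1 - ε) ^ 4) (𝓝[>] 0) (𝓝 0) := by
    have h2 : Tendsto (fun ε : ℝ => 1 - (1 - ε) ^ 2) (𝓝[>] 0) (𝓝 0) := by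
      have : Continuous (fun ε : ℝ => 1 - (1 - ε) ^ 2) := by fun_prop
      have h3 := this.tendsto 0
      norm_num at h3
      exact h3.mono_left nhdsWithin_le_nhds
    refine h2.congr' ?_
    have h4 : ∀ᶠ ε in 𝓝[>] (0 : ℝ), ε < 1 := nhdsWithin_le_nhds (gt_mem_nhds one_pos)
    filter_upwards [h4, self_mem_nhdsWithin] with ε h5 h6
    have h7 : 0 < ε := h6
    rw [ca_pow (by nlinarith)]
  have h5 : Tendsto (fun ε : ℝ => (ca (1 - ε) ^ 4) ^ ((1 : ℝ) / 4)) (𝓝[>] 0) (𝓝 (0 ^ ((1 : ℝ) / 4))) :=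
    h1.rpow_const (Or.inr (by norm_num))
  rw [Real.zero_rpow (by norm_num)] at h5
  refine h5.congr (fun ε => ?_)
  rw [← Real.rpow_natCast, ← Real.rpow_mul (ca_pos _).le]
  norm_num

theorem zz_tendsto : Tendsto zz (𝓝[>] 0) (𝓝 pp) := by
  have h0 : ∀ ε : ℝ, zz ε = vec ((1 - ε : ℝ) : ℂ) ((ca (1 - ε) * (2 * (1 - ε) - 1) : ℝ) : ℂ) := by
    intro ε
    apply vec_ext
    · simp [zz, phi]
    · simp [zz, phi, isq]
  have h1 : Tendsto (fun ε : ℝ => 1 - ε) (𝓝[>] 0) (𝓝 1) := by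
    have : Continuous (fun ε : ℝ => 1 - ε) := by fun_prop
    have h3 := this.tendsto 0
    norm_num at h3
    exact h3.mono_left nhdsWithin_le_nhds
  have h2 : Tendsto (fun ε : ℝ => ca (1 - ε) * (2 * (1 - ε) - 1)) (𝓝[>] 0) (𝓝 0) := by
    have := ca_tendsto.mul ((h1.const_mul 2).sub_const 1)
    simpa using this
  have h3 : Continuous (fun p : ℝ × ℝ => vec (p.1 : ℂ) (p.2 : ℂ)) := by
    unfold vec
    fun_prop
  have h4 := (h3.tendsto (1, 0)).comp (h1.prodMk_nhds h2)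
  have h5 : vec ((1 : ℝ) : ℂ) ((0 : ℝ) : ℂ) = pp := by
    apply vec_ext <;> simp [pp]
  rw [← h5]
  refine h4.congr (fun ε => ?_)
  rw [h0]; rfl

/-- The egg `|z₀|² + |z₁|⁴ < 1`: a bounded convex domain in `ℂ²` with `C^∞` Levi pseudoconvex
boundary all of whose boundary points have type at most `4`, a boundary point `p` which is not
strongly pseudoconvex, and a sequence converging to `p` along which the squeezing function tends
to `1`. -/
theorem result : ∃ (D : Set (Cn 2)) (p : Cn 2) (z : ℕ → Cn 2),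
    IsOpen D ∧ IsConnected D ∧ Bornology.IsBounded D ∧ Convex ℝ D ∧
    (∀ q ∈ frontier D, IsLeviPseudoconvexNear D q ∧ TypeAtMost D q 4) ∧
    p ∈ frontier D ∧ ¬ IsStronglyPseudoconvexAt D p ∧
    (∀ k, z k ∈ D) ∧ Tendsto z atTop (𝓝 p) ∧
    Tendsto (fun k => squeezing D (z k)) atTop (𝓝 1) := by
  have hε : Tendsto (fun k : ℕ => 1 / ((k : ℝ) + 2)) atTop (𝓝[>] 0) := by
    rw [tendsto_nhdsWithin_iff]
    constructor
    · have := tendsto_one_div_add_atTop_nhds_zero_nat (𝕜 := ℝ)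
      have h2 := this.comp (tendsto_add_atTop_nat 1)
      refine h2.congr (fun k => ?_)
      simp only [Function.comp_apply]
      push_cast
      ring_nf
    · filter_upwards with k
      show 0 < 1 / ((k : ℝ) + 2)
      positivity
  refine ⟨egg, pp, fun k : ℕ => zz (1 / ((k : ℝ) + 2)), isOpen_egg, isConnected_egg, isBounded_egg,
    convex_egg, fun q hq => ⟨egg_levi hq, egg_type hq⟩, pp_frontier, not_strongly, ?_,
    zz_tendsto.comp hε, ?_⟩
  · intro k
    apply zz_mem (by positivity)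
    rw [div_lt_one (by positivity)]
    have : (0 : ℝ) ≤ k := Nat.cast_nonneg k
    linarith
  · rw [tendsto_order]
    constructor
    · intro c hc
      -- choose ρ
      set ρ : ℝ := max (1 / 2) ((1 + c) / 2) with hρ
      have hρ0 : 0 < ρ := lt_of_lt_of_le (by norm_num) (le_max_left _ _)
      have hρ1 : ρ < 1 := max_lt (by norm_num) (by linarith)
      have hcρ : c < ρ := lt_of_lt_of_le (by linarith) (le_max_right _ _)
      have hδ : 0 < min ((1 - ρ ^ 2) / 37) (min ((1 - ρ) / 2) 1) := by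
        apply lt_min
        · apply div_pos _ (by norm_num)
          nlinarith
        · apply lt_min _ one_pos
          apply div_pos _ (by norm_num)
          linarith
      have hev : ∀ᶠ k : ℕ in atTop, 1 / ((k : ℝ) + 2) < min ((1 - ρ ^ 2) / 37) (min ((1 - ρ) / 2) 1) :=
        (hε.mono_right nhdsWithin_le_nhds).eventually (gt_mem_nhds hδ)
      filter_upwards [hev] with k hk
      have e1 : 1 / ((k : ℝ) + 2) < (1 - ρ ^ 2) / 37 := lt_of_lt_of_le hk (min_le_left _ _)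
      have e2 : 1 / ((k : ℝ) + 2) < (1 - ρ) / 2 :=
        lt_of_lt_of_le hk ((min_le_right _ _).trans (min_le_left _ _))
      have e3 : 1 / ((k : ℝ) + 2) < 1 :=
        lt_of_lt_of_le hk ((min_le_right _ _).trans (min_le_right _ _))
      refine lt_of_lt_of_le hcρ (le_squeezing (by positivity) e3 hρ0 hρ1 ?_ ?_)
      · linarith
      · linarith
    · intro c hc
      filter_upwards with k
      exact lt_of_le_of_lt (squeezing_le_one _) hc

end Pool.Agent.Results.MP_63facb_an.EggOrbit
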